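import Pool.Agent.Helper12.PK.Far

set_option autoImplicit false
set_option maxHeartbeats 4000000

/-! # All multipliers up to the record size, prime multipliers, counting -/

namespace Pool.Agent.Helper12.PK

open Finset Filter
open Pool.Agent.H312R2.RG (ev_ff)
open Pool.Agent.H256R2.SC (ff)
open Pool.Agent.R502.PF (tot_sum)

open scoped Classical

theorem ev_ff2 : ∀ᶠ X : ℝ in atTop, ff X ≤ Real.log X * (Real.log (Real.log X)) ^ 2 ∧ Real.log X ≤ ff X ∧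
    1 ≤ Real.log X ∧ 1 ≤ Real.log (Real.log X) := by
  have t1 := Real.tendsto_log_atTop
  have t2 : Tendsto (fun y : ℝ => Real.log (Real.log y)) atTop atTop := t1.comp t1
  have t3 : Tendsto (fun y : ℝ => Real.log (Real.log (Real.log y))) atTop atTop := t1.comp t2
  have t4 : Tendsto (fun y : ℝ => Real.log (Real.log (Real.log (Real.log y)))) atTop atTop := t1.comp t3
  filter_upwards [t1.eventually_ge_atTop 1, t2.eventually_ge_atTop 1, t3.eventually_ge_atTop 1,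
    t4.eventually_ge_atTop 1] with X h1 h2 h3 h4
  have hl3 : 0 < Real.log (Real.log (Real.log X)) := by linarith
  refine ⟨?_, ?_, h1, h2⟩
  · have h5 : Real.log (Real.log (Real.log (Real.log X))) ≤ (Real.log (Real.log (Real.log X))) ^ 2 := by
      have h6 := Real.log_le_sub_one_of_pos hl3
      nlinarith
    unfold ff
    rw [div_le_iff₀ (by positivity)]
    exact mul_le_mul_of_nonneg_left h5 (by positivity)
  · have h5 : Real.log (Real.log (Real.log X)) ≤ Real.log (Real.log X) := by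
      have h6 := Real.log_le_sub_one_of_pos (by linarith : 0 < Real.log (Real.log X))
      linarith
    have h6 : (Real.log (Real.log (Real.log X))) ^ 2 ≤ (Real.log (Real.log X)) ^ 2 :=
      pow_le_pow_left₀ hl3.le h5 2
    unfold ff
    rw [le_div_iff₀ (by positivity)]
    have h7 : (Real.log (Real.log (Real.log X))) ^ 2 ≤
        (Real.log (Real.log X)) ^ 2 * Real.log (Real.log (Real.log (Real.log X))) := by
      have : 0 ≤ (Real.log (Real.log X)) ^ 2 := by positivity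
      nlinarith
    calc Real.log X * (Real.log (Real.log (Real.log X))) ^ 2 ≤
        Real.log X * ((Real.log (Real.log X)) ^ 2 * Real.log (Real.log (Real.log (Real.log X)))) :=
          mul_le_mul_of_nonneg_left h7 (by linarith)
      _ = _ := by ring

/-- sums over all natural numbers up to `c f(X)` -/
theorem nat_range (c : ℝ) (hc : 0 < c) : ∃ c' : ℝ, 0 < c' ∧ c' ≤ 1 ∧ ∀ X : ℝ, 0 ≤ ff X →
    ∑ m ∈ Icc 1 ⌊c' * ff X⌋₊, ((m : ℝ) / (m.totient : ℝ)) ≤ c * ff X := by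
  obtain ⟨C, hC1, hC⟩ := tot_sum
  refine ⟨min 1 (c / C), lt_min one_pos (by positivity), min_le_left _ _, fun X hX => ?_⟩
  refine (hC _).trans ?_
  have h1 : ((⌊min 1 (c / C) * ff X⌋₊ : ℕ) : ℝ) ≤ min 1 (c / C) * ff X :=
    Nat.floor_le (mul_nonneg (le_min zero_le_one (by positivity)) hX)
  have h2 : min 1 (c / C) * ff X ≤ c / C * ff X := mul_le_mul_of_nonneg_right (min_le_right _ _) hX
  calc C * ((⌊min 1 (c / C) * ff X⌋₊ : ℕ) : ℝ) ≤ C * (c / C * ff X) :=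
        mul_le_mul_of_nonneg_left (h1.trans h2) (by linarith)
    _ = c * ff X := by field_simp

/-- sums over the primes up to `c f(X) log log X` -/
theorem prime_range (c : ℝ) (hc : 0 < c) : ∃ c' : ℝ, 0 < c' ∧ c' ≤ 1 ∧ ∀ᶠ X : ℝ in atTop,
    ∑ m ∈ (Icc 1 ⌊c' * (ff X * Real.log (Real.log X))⌋₊).filter Nat.Prime, ((m : ℝ) / (m.totient : ℝ)) ≤
      c * ff X := by
  set c' : ℝ := min 1 (c / 4) with hc'
  have hc'0 : 0 < c' := lt_min one_pos (by positivity)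
  refine ⟨c', hc'0, min_le_left _ _, ?_⟩
  have t1 := Real.tendsto_log_atTop
  have t2 : Tendsto (fun y : ℝ => Real.log (Real.log y)) atTop atTop := t1.comp t1
  have hch := Chebyshev.eventually_primeCounting_le (ε := 2 - Real.log 4) (by
    have : Real.log 4 < 2 := by
      have h1 : Real.log 4 = 2 * Real.log 2 := by
        rw [show (4 : ℝ) = 2 ^ 2 by norm_num, Real.log_pow]
        norm_num
      have := Real.log_two_lt_d9
      linarith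
    linarith)
  obtain ⟨x₀, hx₀⟩ := eventually_atTop.1 hch
  filter_upwards [ev_ff2, t2.eventually_ge_atTop (1 / c'), t1.eventually_ge_atTop x₀,
    t1.eventually_ge_atTop 2] with X h1 h2 h3 h4
  obtain ⟨g1, g2, g3, g4⟩ := h1
  set Y := c' * (ff X * Real.log (Real.log X)) with hY
  have hff0 : 0 < ff X := by linarith
  have hYL : Real.log X ≤ Y := by
    have e1 : 1 ≤ c' * Real.log (Real.log X) := by
      rw [div_le_iff₀ hc'0] at h2
      linarith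
    calc Real.log X ≤ ff X * 1 := by linarith
      _ ≤ ff X * (c' * Real.log (Real.log X)) := mul_le_mul_of_nonneg_left e1 hff0.le
      _ = Y := by rw [hY]; ring
  have hY0 : 0 < Y := by linarith
  have hlogY : Real.log (Real.log X) ≤ Real.log Y := Real.log_le_log (by linarith) hYL
  have hlY0 : 0 < Real.log Y := by linarith
  have hpi := hx₀ Y (h3.trans hYL)
  have e2 : (Real.log 4 + (2 - Real.log 4)) * Y / Real.log Y ≤ 2 * c' * ff X := by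
    rw [div_le_iff₀ hlY0]
    have e3 : Y ≤ c' * ff X * Real.log Y := by
      calc Y = c' * ff X * Real.log (Real.log X) := by rw [hY]; ring
        _ ≤ _ := mul_le_mul_of_nonneg_left hlogY (by positivity)
    linarith
  have hcard : (((Icc 1 ⌊Y⌋₊).filter Nat.Prime).card : ℝ) ≤ 2 * c' * ff X := by
    refine le_trans ?_ (hpi.trans e2)
    rw [Nat.primeCounting, Nat.primeCounting', Nat.count_eq_card_filter_range]
    exact_mod_cast card_le_card (by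
      intro m hm
      rw [mem_filter, mem_Icc] at hm
      rw [mem_filter, mem_range]
      exact ⟨by omega, hm.2⟩)
  have hterm : ∀ m ∈ (Icc 1 ⌊Y⌋₊).filter Nat.Prime, ((m : ℝ) / (m.totient : ℝ)) ≤ 2 := by
    intro m hm
    rw [mem_filter] at hm
    have hp := hm.2
    rw [Nat.totient_prime hp]
    have h5 : 2 ≤ m := hp.two_le
    have h6 : ((m - 1 : ℕ) : ℝ) = (m : ℝ) - 1 := by
      rw [Nat.cast_sub (by omega)]
      simp
    rw [h6]
    have h7 : (2 : ℝ) ≤ m := by exact_mod_cast h5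
    rw [div_le_iff₀ (by linarith)]
    linarith
  calc ∑ m ∈ (Icc 1 ⌊Y⌋₊).filter Nat.Prime, ((m : ℝ) / (m.totient : ℝ)) ≤
      ((Icc 1 ⌊Y⌋₊).filter Nat.Prime).card • (2 : ℝ) := sum_le_card_nsmul _ _ _ hterm
    _ = (((Icc 1 ⌊Y⌋₊).filter Nat.Prime).card : ℝ) * 2 := by rw [nsmul_eq_mul]
    _ ≤ (2 * c' * ff X) * 2 := mul_le_mul_of_nonneg_right hcard (by norm_num)
    _ = 4 * c' * ff X := by ring
    _ ≤ c * ff X := by
        apply mul_le_mul_of_nonneg_right _ hff0.le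
        have : c' ≤ c / 4 := min_le_right _ _
        linarith

/-- from one prime outside every small set to many primes -/
theorem many {X : ℝ} (Q : ℕ → Prop)
    (h : ∀ bad : Finset ℕ, (bad.card : ℝ) ≤ X ^ (9 / 10 : ℝ) →
      ∃ p : ℕ, p.Prime ∧ X < p ∧ (p : ℝ) ≤ 3 * X ∧ p ∉ bad ∧ Q p) :
    X ^ (9 / 10 : ℝ) ≤ ({p : ℕ | p.Prime ∧ X < p ∧ (p : ℝ) ≤ 3 * X ∧ Q p}.ncard : ℝ) := by
  have hfin : {p : ℕ | p.Prime ∧ X < p ∧ (p : ℝ) ≤ 3 * X ∧ Q p}.Finite := by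
    apply (Set.finite_Iic ⌊3 * X⌋₊).subset
    intro p hp
    exact Set.mem_Iic.2 (Nat.le_floor hp.2.2.1)
  by_contra hcon
  push Not at hcon
  rw [Set.ncard_eq_toFinset_card _ hfin] at hcon
  obtain ⟨p, hp, hXp, hp3, hpb, hQ⟩ := h hfin.toFinset hcon.le
  apply hpb
  rw [Set.Finite.mem_toFinset]
  exact ⟨hp, hXp, hp3, hQ⟩

/-- `j q` is not of the form `x + b`, `0 < |b| ≤ B`, `0 < |j| ≤ J`, `q` prime -/
def Far (B J : ℕ) (x : ℤ) : Prop :=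
  ∀ b j : ℤ, 1 ≤ |b| → |b| ≤ B → 1 ≤ |j| → |j| ≤ J → ∀ q : ℕ, q.Prime → j * q ≠ x + b

theorem Far.neg {B J : ℕ} {x : ℤ} (h : Far B J x) : Far B J (-x) := by
  intro b j hb1 hbB hj1 hjJ q hq heq
  exact h (-b) (-j) (by rwa [abs_neg]) (by rwa [abs_neg]) (by rwa [abs_neg]) (by rwa [abs_neg]) q hq (by linarith)

theorem main_sets (A B D J : ℕ) (A₀ : ℝ) (d : ℕ) (hd : Squarefree d) : ∃ c : ℝ, 0 < c ∧ ∃ X₀ : ℝ,
    ∀ X : ℝ, X₀ ≤ X → ∀ a : ℤ, a ≠ 0 → |(a : ℝ)| ≤ (Real.log X) ^ D → |(a : ℝ)| ≤ A₀ * (a.natAbs.totient : ℝ) →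
    ∀ h : ℕ, h.Coprime d →
    (∀ K : Finset ℤ, (∀ k ∈ K, k ≠ 0 ∧ |(k : ℝ)| ≤ Real.log X * (Real.log (Real.log X)) ^ A) →
      ∑ k ∈ K, (|(k : ℝ)| / (k.natAbs.totient : ℝ)) ≤ c * ff X →
      X ^ (9 / 10 : ℝ) ≤ ({p : ℕ | p.Prime ∧ X < p ∧ (p : ℝ) ≤ 3 * X ∧ p ≡ h [MOD d] ∧
        ∀ k ∈ K, Far B J (a * k * p)}.ncard : ℝ)) ∧
    X ^ (9 / 10 : ℝ) ≤ ({p : ℕ | p.Prime ∧ X < p ∧ (p : ℝ) ≤ 3 * X ∧ p ≡ h [MOD d] ∧
      ∀ k : ℤ, k ≠ 0 → |(k : ℝ)| ≤ c * ff X → Far B J (a * k * p)}.ncard : ℝ) ∧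
    X ^ (9 / 10 : ℝ) ≤ ({p : ℕ | p.Prime ∧ X < p ∧ (p : ℝ) ≤ 3 * X ∧ p ≡ h [MOD d] ∧
      ∀ r : ℕ, r.Prime → (r : ℝ) ≤ c * (ff X * Real.log (Real.log X)) → Far B J (a * r * p)}.ncard : ℝ) := by
  obtain ⟨c₀, hc₀, hfar⟩ := far (max A 3) B D J A₀ d hd
  obtain ⟨c₁, hc₁, hc₁1, hall⟩ := nat_range c₀ hc₀
  obtain ⟨c₂, hc₂, hc₂1, hpr⟩ := prime_range c₀ hc₀
  set c := min c₀ (min c₁ c₂) with hcd
  have hc : 0 < c := lt_min hc₀ (lt_min hc₁ hc₂)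
  have hcc₀ : c ≤ c₀ := min_le_left _ _
  have hcc₁ : c ≤ c₁ := (min_le_right _ _).trans (min_le_left _ _)
  have hcc₂ : c ≤ c₂ := (min_le_right _ _).trans (min_le_right _ _)
  obtain ⟨X₀, hX₀⟩ := eventually_atTop.1 ((hfar.and hpr).and ev_ff2)
  refine ⟨c, hc, X₀, fun X hXX a ha haD haφ h hh => ?_⟩
  obtain ⟨⟨hX, hXp⟩, g1, g2, g3, g4⟩ := hX₀ X hXX
  have hff0 : 0 ≤ ff X := by linarith
  have hcast : ∀ k : ℤ, ((k.natAbs : ℕ) : ℝ) = |(k : ℝ)| := fun k => by rw [Nat.cast_natAbs, Int.cast_abs]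
  have hpowA : ∀ m n : ℕ, m ≤ n → Real.log X * (Real.log (Real.log X)) ^ m ≤
      Real.log X * (Real.log (Real.log X)) ^ n := fun m n hmn =>
    mul_le_mul_of_nonneg_left (pow_le_pow_right₀ g4 hmn) (by linarith)
  -- for a set of natural numbers
  have key : ∀ K : Finset ℤ, (∀ k ∈ K, k ≠ 0 ∧ |(k : ℝ)| ≤ Real.log X * (Real.log (Real.log X)) ^ (max A 3)) →
      ∑ k ∈ K, (|(k : ℝ)| / (k.natAbs.totient : ℝ)) ≤ c₀ * ff X →
      X ^ (9 / 10 : ℝ) ≤ ({p : ℕ | p.Prime ∧ X < p ∧ (p : ℝ) ≤ 3 * X ∧ p ≡ h [MOD d] ∧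
        ∀ k ∈ K, Far B J (a * k * p)}.ncard : ℝ) := by
    intro K hK hKw
    refine many _ fun bad hbad => ?_
    obtain ⟨p, hp, hXp, hp3, hpb, hpd, hmain⟩ := hX a ha haD haφ h hh K hK
      (le_trans (le_of_eq (sum_congr rfl fun k _ => by rw [hcast])) hKw) bad hbad
    exact ⟨p, hp, hXp, hp3, hpb, hpd, fun k hk b j hb1 hbB hj1 hjJ q hq => hmain k hk b j hb1 hbB hj1 hjJ q hq⟩
  have keyN : ∀ K : Finset ℕ, (∀ k ∈ K, 1 ≤ k ∧ (k : ℝ) ≤ Real.log X * (Real.log (Real.log X)) ^ (max A 3)) →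
      ∑ k ∈ K, ((k : ℝ) / (k.totient : ℝ)) ≤ c₀ * ff X →
      X ^ (9 / 10 : ℝ) ≤ ({p : ℕ | p.Prime ∧ X < p ∧ (p : ℝ) ≤ 3 * X ∧ p ≡ h [MOD d] ∧
        ∀ k ∈ K, Far B J (a * (k : ℤ) * p)}.ncard : ℝ) := by
    intro K hK hKw
    have h1 := key (K.image (fun k : ℕ => (k : ℤ))) (by
      intro z hz
      rw [mem_image] at hz
      obtain ⟨m, hm, rfl⟩ := hz
      obtain ⟨h2, h3⟩ := hK m hm
      refine ⟨by omega, ?_⟩
      push_cast
      rwa [abs_of_nonneg (Nat.cast_nonneg m)]) (by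
      rw [sum_image]
      · simpa using hKw
      · intro m _ n _ hmn
        simpa using hmn)
    refine h1.trans ?_
    rw [Nat.cast_le]
    refine Set.ncard_le_ncard ?_ ?_
    · rintro p ⟨h2, h3, h4, h5, h6⟩
      exact ⟨h2, h3, h4, h5, fun k hk => h6 (k : ℤ) (mem_image.2 ⟨k, hk, rfl⟩)⟩
    · apply (Set.finite_Iic ⌊3 * X⌋₊).subset
      intro p hp
      exact Set.mem_Iic.2 (Nat.le_floor hp.2.2.1)
  have hfinS : ∀ Q : ℕ → Prop, {p : ℕ | p.Prime ∧ X < p ∧ (p : ℝ) ≤ 3 * X ∧ p ≡ h [MOD d] ∧ Q p}.Finite := by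
    intro Q
    apply (Set.finite_Iic ⌊3 * X⌋₊).subset
    intro p hp
    exact Set.mem_Iic.2 (Nat.le_floor hp.2.2.1)
  refine ⟨?_, ?_, ?_⟩
  · intro K hK hKw
    exact key K (fun k hk => ⟨(hK k hk).1, (hK k hk).2.trans (hpowA _ _ (le_max_left _ _))⟩)
      (hKw.trans (mul_le_mul_of_nonneg_right hcc₀ hff0))
  · have h1 := keyN (Icc 1 ⌊c₁ * ff X⌋₊) (by
      intro k hk
      rw [mem_Icc] at hk
      refine ⟨hk.1, ?_⟩
      have h2 : (k : ℝ) ≤ c₁ * ff X := by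
        refine le_trans ?_ (Nat.floor_le (by positivity) : ((⌊c₁ * ff X⌋₊ : ℕ) : ℝ) ≤ c₁ * ff X)
        exact_mod_cast hk.2
      refine h2.trans (le_trans ?_ (hpowA 2 _ (by omega)))
      nlinarith) (hall X hff0)
    refine h1.trans ?_
    rw [Nat.cast_le]
    refine Set.ncard_le_ncard ?_ (hfinS _)
    rintro p ⟨h2, h3, h4, h5, h6⟩
    refine ⟨h2, h3, h4, h5, fun k hk0 hk => ?_⟩
    have h7 : k.natAbs ∈ Icc 1 ⌊c₁ * ff X⌋₊ := by
      rw [mem_Icc]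
      refine ⟨Nat.one_le_iff_ne_zero.2 (Int.natAbs_ne_zero.2 hk0), Nat.le_floor ?_⟩
      rw [hcast]
      exact hk.trans (mul_le_mul_of_nonneg_right hcc₁ hff0)
    have h8 := h6 _ h7
    rcases le_total 0 k with h0 | h0
    · have e : ((k.natAbs : ℕ) : ℤ) = k := by omega
      rwa [e] at h8
    · have e : ((k.natAbs : ℕ) : ℤ) = -k := by omega
      rw [e] at h8
      have h9 := h8.neg
      have e2 : -(a * -k * (p : ℤ)) = a * k * p := by ring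
      rwa [e2] at h9
  · have h1 := keyN ((Icc 1 ⌊c₂ * (ff X * Real.log (Real.log X))⌋₊).filter Nat.Prime) (by
      intro k hk
      rw [mem_filter, mem_Icc] at hk
      refine ⟨hk.1.1, ?_⟩
      have h2 : (k : ℝ) ≤ c₂ * (ff X * Real.log (Real.log X)) := by
        refine le_trans ?_ (Nat.floor_le (by positivity) :
          ((⌊c₂ * (ff X * Real.log (Real.log X))⌋₊ : ℕ) : ℝ) ≤ c₂ * (ff X * Real.log (Real.log X)))
        exact_mod_cast hk.1.2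
      refine h2.trans (le_trans ?_ (hpowA 3 _ (le_max_right _ _)))
      have h3 : ff X * Real.log (Real.log X) ≤ Real.log X * (Real.log (Real.log X)) ^ 2 * Real.log (Real.log X) :=
        mul_le_mul_of_nonneg_right g1 (by linarith)
      have h4 : 0 ≤ ff X * Real.log (Real.log X) := by positivity
      calc c₂ * (ff X * Real.log (Real.log X)) ≤ 1 * (ff X * Real.log (Real.log X)) :=
            mul_le_mul_of_nonneg_right hc₂1 h4
        _ ≤ Real.log X * (Real.log (Real.log X)) ^ 2 * Real.log (Real.log X) := by rwa [one_mul]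
        _ = _ := by ring) hXp
    refine h1.trans ?_
    rw [Nat.cast_le]
    refine Set.ncard_le_ncard ?_ (hfinS _)
    rintro p ⟨h2, h3, h4, h5, h6⟩
    refine ⟨h2, h3, h4, h5, fun r hr hrle => h6 r ?_⟩
    rw [mem_filter, mem_Icc]
    refine ⟨⟨hr.one_le, Nat.le_floor (hrle.trans ?_)⟩, hr⟩
    exact mul_le_mul_of_nonneg_right hcc₂ (by positivity)

theorem main_powers (A D J s : ℕ) (hs : 1 ≤ s) (A₀ : ℝ) (d : ℕ) (hd : Squarefree d) (b : ℤ) (hb : b ≠ 0) :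
    ∃ c : ℝ, 0 < c ∧ ∃ X₀ : ℝ,
    ∀ X : ℝ, X₀ ≤ X → ∀ a : ℤ, a ≠ 0 → |(a : ℝ)| ≤ (Real.log X) ^ D → |(a : ℝ)| ≤ A₀ * (a.natAbs.totient : ℝ) →
    ∀ h : ℕ, h.Coprime d →
    (∀ K : Finset ℕ, (∀ m ∈ K, 1 ≤ m ∧ (m : ℝ) ≤ Real.log X * (Real.log (Real.log X)) ^ A) →
      ∑ m ∈ K, ((m : ℝ) / (m.totient : ℝ)) ≤ c * ff X →
      X ^ (9 / 10 : ℝ) ≤ ({p : ℕ | p.Prime ∧ X < p ∧ (p : ℝ) ≤ 3 * X ∧ p ≡ h [MOD d] ∧
        ∀ m ∈ K, ∀ j : ℤ, 1 ≤ |j| → |j| ≤ J → ∀ q : ℕ, q.Prime → j * q ≠ a * (m : ℤ) ^ s * p + b}.ncard : ℝ)) ∧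
    X ^ (9 / 10 : ℝ) ≤ ({p : ℕ | p.Prime ∧ X < p ∧ (p : ℝ) ≤ 3 * X ∧ p ≡ h [MOD d] ∧
      ∀ m : ℕ, 1 ≤ m → (m : ℝ) ≤ c * ff X → ∀ j : ℤ, 1 ≤ |j| → |j| ≤ J → ∀ q : ℕ, q.Prime →
        j * q ≠ a * (m : ℤ) ^ s * p + b}.ncard : ℝ) := by
  obtain ⟨c₀, hc₀, hfar⟩ := powers (max A 2) D J s hs A₀ d hd b hb
  obtain ⟨c₁, hc₁, hc₁1, hall⟩ := nat_range c₀ hc₀
  set c := min c₀ c₁ with hcd
  have hc : 0 < c := lt_min hc₀ hc₁
  have hcc₀ : c ≤ c₀ := min_le_left _ _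
  have hcc₁ : c ≤ c₁ := min_le_right _ _
  obtain ⟨X₀, hX₀⟩ := eventually_atTop.1 (hfar.and ev_ff2)
  refine ⟨c, hc, X₀, fun X hXX a ha haD haφ h hh => ?_⟩
  obtain ⟨hX, g1, g2, g3, g4⟩ := hX₀ X hXX
  have hff0 : 0 ≤ ff X := by linarith
  have hpowA : ∀ m n : ℕ, m ≤ n → Real.log X * (Real.log (Real.log X)) ^ m ≤
      Real.log X * (Real.log (Real.log X)) ^ n := fun m n hmn =>
    mul_le_mul_of_nonneg_left (pow_le_pow_right₀ g4 hmn) (by linarith)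
  have key : ∀ K : Finset ℕ, (∀ m ∈ K, 1 ≤ m ∧ (m : ℝ) ≤ Real.log X * (Real.log (Real.log X)) ^ (max A 2)) →
      ∑ m ∈ K, ((m : ℝ) / (m.totient : ℝ)) ≤ c₀ * ff X →
      X ^ (9 / 10 : ℝ) ≤ ({p : ℕ | p.Prime ∧ X < p ∧ (p : ℝ) ≤ 3 * X ∧ p ≡ h [MOD d] ∧
        ∀ m ∈ K, ∀ j : ℤ, 1 ≤ |j| → |j| ≤ J → ∀ q : ℕ, q.Prime → j * q ≠ a * (m : ℤ) ^ s * p + b}.ncard : ℝ) := by
    intro K hK hKw
    refine many _ fun bad hbad => ?_
    obtain ⟨p, hp, hXp, hp3, hpb, hpd, hmain⟩ := hX a ha haD haφ h hh K hK hKw bad hbad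
    exact ⟨p, hp, hXp, hp3, hpb, hpd, hmain⟩
  refine ⟨?_, ?_⟩
  · intro K hK hKw
    exact key K (fun k hk => ⟨(hK k hk).1, (hK k hk).2.trans (hpowA _ _ (le_max_left _ _))⟩)
      (hKw.trans (mul_le_mul_of_nonneg_right hcc₀ hff0))
  · have h1 := key (Icc 1 ⌊c₁ * ff X⌋₊) (by
      intro k hk
      rw [mem_Icc] at hk
      refine ⟨hk.1, ?_⟩
      have h2 : (k : ℝ) ≤ c₁ * ff X := by
        refine le_trans ?_ (Nat.floor_le (by positivity) : ((⌊c₁ * ff X⌋₊ : ℕ) : ℝ) ≤ c₁ * ff X)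
        exact_mod_cast hk.2
      refine h2.trans (le_trans ?_ (hpowA 2 _ (le_max_right _ _)))
      nlinarith) (hall X hff0)
    refine h1.trans ?_
    rw [Nat.cast_le]
    refine Set.ncard_le_ncard ?_ ?_
    · rintro p ⟨h2, h3, h4, h5, h6⟩
      refine ⟨h2, h3, h4, h5, fun m hm1 hm => h6 m ?_⟩
      rw [mem_Icc]
      exact ⟨hm1, Nat.le_floor (hm.trans (mul_le_mul_of_nonneg_right hcc₁ hff0))⟩
    · apply (Set.finite_Iic ⌊3 * X⌋₊).subset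
      intro p hp
      exact Set.mem_Iic.2 (Nat.le_floor hp.2.2.1)

end Pool.Agent.Helper12.PK
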