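import Pool.Agent.R502.PF.Forms
import Pool.Agent.TH101.RG.PatZ

set_option autoImplicit false
set_option maxHeartbeats 4000000

/-! # Primes whose multiples by all members of a prescribed set are far from all primes -/

namespace Pool.Agent.Helper12.PK

open Finset Filter
open Pool.Agent.H312R2.RG (ev_ff)
open Pool.Agent.H256R2.SC (ff)
open Pool.Agent.TH101.RG

open scoped Classical

theorem hdivF {M : ℕ} : ∀ x : ℤ, 1 ≤ |x| → |x| ≤ M → x ∣ ((M.factorial : ℕ) : ℤ) := by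
  intro x h1 h2
  rw [Int.abs_eq_natAbs] at h1 h2
  rw [← Int.natAbs_dvd_natAbs, Int.natAbs_natCast]
  apply Nat.dvd_factorial
  · exact_mod_cast h1
  · exact_mod_cast h2

theorem far (A B D J : ℕ) (A₀ : ℝ) (d : ℕ) (hd : Squarefree d) : ∃ c : ℝ, 0 < c ∧ ∀ᶠ X : ℝ in atTop,
    ∀ a : ℤ, a ≠ 0 → |(a : ℝ)| ≤ (Real.log X) ^ D → |(a : ℝ)| ≤ A₀ * (a.natAbs.totient : ℝ) →
    ∀ h : ℕ, h.Coprime d → ∀ K : Finset ℤ,
    (∀ k ∈ K, k ≠ 0 ∧ |(k : ℝ)| ≤ Real.log X * (Real.log (Real.log X)) ^ A) →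
    ∑ k ∈ K, ((k.natAbs : ℝ) / (k.natAbs.totient : ℝ)) ≤ c * ff X →
    ∀ bad : Finset ℕ, (bad.card : ℝ) ≤ X ^ (9 / 10 : ℝ) →
    ∃ p : ℕ, p.Prime ∧ X < p ∧ (p : ℝ) ≤ 3 * X ∧ p ∉ bad ∧ p ≡ h [MOD d] ∧
      ∀ k ∈ K, ∀ b j : ℤ, 1 ≤ |b| → |b| ≤ B → 1 ≤ |j| → |j| ≤ J → ∀ q : ℕ, q.Prime →
        j * q ≠ a * k * p + b := by
  obtain ⟨ℓ, hℓ⟩ : ∃ ℓ : ℕ, ℓ = (max B J).factorial := ⟨_, rfl⟩
  have hℓ0 : 0 < ℓ := by rw [hℓ]; exact Nat.factorial_pos _
  have hℓr : (1 : ℝ) ≤ ℓ := by exact_mod_cast hℓ0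
  have hd0 : d ≠ 0 := hd.ne_zero
  obtain ⟨c₁, hc₁, hone⟩ := oneZ (A + 1) (D + 2) (ℓ + |A₀| + d)
  refine ⟨c₁ / (3 * ℓ * ℓ), by positivity, ?_⟩
  have t1 := Real.tendsto_log_atTop
  have t2 : Tendsto (fun y : ℝ => Real.log (Real.log y)) atTop atTop := t1.comp t1
  filter_upwards [hone d hd, ev_ff c₁ hc₁, t1.eventually_ge_atTop ((ℓ : ℝ) * d),
    t1.eventually_ge_atTop ((J : ℝ) + B + 2), t2.eventually_ge_atTop (ℓ + 1 : ℝ), eventually_ge_atTop 4,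
    t1.eventually (Pool.Agent.H378R2.ev_pow_exp (D + A + 3) (1 / 40) 1 (by norm_num))]
    with X hX hff hLd hLJ hLℓ hX4 hE
  intro a ha haD haφ h hh K hK hKw bad hbad
  set L := Real.log X with hL
  have hX0 : 0 < X := by linarith
  have hJ0 : (0 : ℝ) ≤ J := Nat.cast_nonneg J
  have hB0 : (0 : ℝ) ≤ B := Nat.cast_nonneg B
  have hL1 : 1 ≤ L := by linarith
  have hL0 : 0 < L := by linarith
  have hLL : Real.log L ≤ L := (Real.log_le_sub_one_of_pos hL0).trans (by linarith)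
  have hLL0 : 0 < Real.log L := by linarith
  set E := Real.exp (1 / 40 * L) with hEd
  rw [one_mul] at hE
  have hE0 : 0 < E := Real.exp_pos _
  have hELJ : (J : ℝ) + B + 2 ≤ E := by
    have h1 : L ^ 1 ≤ L ^ (D + A + 3) := pow_le_pow_right₀ hL1 (by omega)
    rw [pow_one] at h1
    linarith
  have hE1 : 1 ≤ E := by linarith
  have hpowE : ∀ k : ℕ, X ^ ((k : ℝ) / 40) = E ^ k := by
    intro k
    rw [hEd, ← Real.exp_nat_mul, Real.rpow_def_of_pos hX0, ← hL]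
    congr 1
    ring
  have e1000 : X ^ (1 / 1000 : ℝ) ≤ E := by
    have h1 := hpowE 1
    rw [pow_one] at h1
    rw [← h1]
    exact Real.rpow_le_rpow_of_exponent_le (by linarith) (by norm_num)
  have eX : X = E ^ 40 := by
    have h1 := hpowE 40
    rw [← h1]
    norm_num
  -- the data
  set ga : ℕ := ℓ * (a.natAbs * d) with hga
  have hana : a.natAbs ≠ 0 := Int.natAbs_ne_zero.2 ha
  have hga0 : ga ≠ 0 := by
    rw [hga]
    exact mul_ne_zero hℓ0.ne' (mul_ne_zero hana hd0)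
  have hacast : ((a.natAbs : ℕ) : ℝ) = |(a : ℝ)| := by rw [Nat.cast_natAbs, Int.cast_abs]
  have hgsum : ∑ p ∈ ga.primeFactors, (1 : ℝ) / p ≤ ℓ + |A₀| + d := by
    have h1 := sum_inv_mul ℓ (a.natAbs * d) hℓ0.ne' (mul_ne_zero hana hd0)
    have h2 := sum_inv_mul a.natAbs d hana hd0
    have h3 := sum_inv_le_self ℓ
    have h4 := sum_inv_le_self d
    have h5 := sum_inv_le_of_totient a.natAbs hana A₀ (by rw [hacast]; exact haφ)
    have h6 := le_abs_self A₀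
    rw [← hga] at h1
    linarith
  have hgle : (ga : ℝ) ≤ L ^ (D + 1) := by
    rw [hga]
    push_cast
    rw [hacast]
    calc (ℓ : ℝ) * (|(a : ℝ)| * d) = |(a : ℝ)| * (ℓ * d) := by ring
      _ ≤ L ^ D * L := mul_le_mul haD hLd (by positivity) (by positivity)
      _ = L ^ (D + 1) := (pow_succ _ _).symm
  have hdivga : a ∣ (ga : ℤ) := by
    rw [hga]
    push_cast
    have h1 : (a : ℤ) ∣ |a| := (dvd_abs a a).2 (dvd_refl a)
    exact (h1.mul_right _).mul_left _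
  have hdivgl : (ℓ : ℤ) ∣ (ga : ℤ) := by
    rw [hga]
    push_cast
    exact dvd_mul_right _ _
  have hℓZ : (ℓ : ℤ) ≠ 0 := by exact_mod_cast hℓ0.ne'
  -- the set of multipliers
  set I : Finset ℤ := (Icc (-(ℓ : ℤ)) ℓ).filter (fun i => i ≠ 0) with hI
  have hImem : ∀ i : ℤ, i ∈ I ↔ (|i| ≤ ℓ ∧ i ≠ 0) := by
    intro i
    rw [hI, mem_filter, mem_Icc, abs_le]
  have hIcard : (I.card : ℝ) ≤ 3 * ℓ := by
    have h1 : I.card ≤ (Icc (-(ℓ : ℤ)) ℓ).card := card_le_card (filter_subset _ _)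
    rw [Int.card_Icc] at h1
    have h2 : I.card ≤ 3 * ℓ := by omega
    exact_mod_cast h2
  set Z' : Finset ℤ := (I ×ˢ K).image (fun x => x.1 * x.2) with hZ'
  have hZ'mem : ∀ z ∈ Z', z ≠ 0 ∧ |(z : ℝ)| ≤ L * (Real.log L) ^ (A + 1) := by
    intro z hz
    rw [hZ', mem_image] at hz
    obtain ⟨⟨i, x⟩, hix, rfl⟩ := hz
    rw [mem_product, hImem] at hix
    obtain ⟨⟨hi1, hi2⟩, hx⟩ := hix
    obtain ⟨hx1, hx2⟩ := hK x hx
    refine ⟨mul_ne_zero hi2 hx1, ?_⟩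
    push_cast
    rw [abs_mul]
    have hi3 : |(i : ℝ)| ≤ ℓ := by exact_mod_cast hi1
    calc |(i : ℝ)| * |(x : ℝ)| ≤ Real.log L * (L * (Real.log L) ^ A) :=
          mul_le_mul (by linarith) hx2 (abs_nonneg _) hLL0.le
      _ = _ := by ring
  have hZ'w : ∑ z ∈ Z', ((z.natAbs : ℝ) / (z.natAbs.totient : ℝ)) ≤ c₁ * ff X := by
    have h1 := sum_image_le' (I ×ˢ K) (fun x => x.1 * x.2)
      (fun z : ℤ => ((z.natAbs : ℝ) / (z.natAbs.totient : ℝ))) (fun z => by positivity)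
    rw [← hZ', sum_product] at h1
    refine h1.trans ?_
    have h2 : ∀ i ∈ I, ∑ z ∈ K, (((i * z).natAbs : ℝ) / ((i * z).natAbs.totient : ℝ)) ≤
        ℓ * (c₁ / (3 * ℓ * ℓ) * ff X) := by
      intro i hi
      rw [hImem] at hi
      have hi3 : |(i : ℝ)| ≤ ℓ := by exact_mod_cast hi.1
      calc ∑ z ∈ K, (((i * z).natAbs : ℝ) / ((i * z).natAbs.totient : ℝ)) ≤
          ∑ z ∈ K, ℓ * ((z.natAbs : ℝ) / (z.natAbs.totient : ℝ)) := by
            apply sum_le_sum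
            intro z hz
            refine (ratio_mul_le i z hi.2 (hK z hz).1).trans ?_
            exact mul_le_mul_of_nonneg_right hi3 (by positivity)
        _ = ℓ * ∑ z ∈ K, ((z.natAbs : ℝ) / (z.natAbs.totient : ℝ)) := (mul_sum _ _ _).symm
        _ ≤ _ := mul_le_mul_of_nonneg_left hKw (by positivity)
    refine (sum_le_card_nsmul _ _ _ h2).trans ?_
    rw [nsmul_eq_mul]
    have hffn : 0 ≤ ff X := hff.2.1
    calc (I.card : ℝ) * (ℓ * (c₁ / (3 * ℓ * ℓ) * ff X)) ≤ (3 * ℓ) * (ℓ * (c₁ / (3 * ℓ * ℓ) * ff X)) :=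
          mul_le_mul_of_nonneg_right hIcard (by positivity)
      _ = c₁ * ff X := by field_simp
  have hLX : L ≤ X := (Real.log_le_sub_one_of_pos hX0).trans (by linarith)
  have hX1 : 1 ≤ X := by linarith
  have hLA : ∀ B : ℕ, B ≤ A + 1 → L * (Real.log L) ^ B ≤ E := by
    intro B hB
    calc L * (Real.log L) ^ B ≤ L * L ^ B := by gcongr
      _ = L ^ (B + 1) := by ring
      _ ≤ L ^ (D + A + 3) := pow_le_pow_right₀ hL1 (by omega)
      _ ≤ E := hE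
  have hEX : E ≤ X := by
    rw [eX]
    calc E = E ^ 1 := (pow_one _).symm
      _ ≤ E ^ 40 := pow_le_pow_right₀ hE1 (by norm_num)
  obtain ⟨p, hp, hXp, hp3, hpb, hpd, hmain⟩ := hX (fun z => a * z) (fun _ => (ℓ : ℤ)) ga hga0
    (by
      rw [hga]
      exact Dvd.dvd.mul_left (Dvd.dvd.mul_left (dvd_refl d) _) _) hgsum
    (hgle.trans (pow_le_pow_right₀ hL1 (by omega)))
    (by
      intro r hr hrg cc hcc
      have hra : ¬ (r : ℤ) ∣ a * cc := by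
        intro h1
        rcases (Nat.prime_iff_prime_int.1 hr).dvd_mul.1 h1 with h2 | h2
        · exact hrg (by exact_mod_cast h2.trans hdivga)
        · exact hcc h2
      obtain ⟨ρ, hρ⟩ := solve r hr (a * cc) (ℓ : ℤ) hra
      refine ⟨ρ, ?_, ?_⟩
      · intro h1
        apply hrg
        have h2 : (r : ℤ) ∣ (ρ : ℤ) := Int.natCast_dvd_natCast.2 h1
        have h3 := dvd_sub hρ (h2.mul_left (a * cc))
        rw [add_sub_cancel_left] at h3
        exact_mod_cast h3.trans hdivgl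
      · intro z n h1 h2
        have h3 : a * z * n + (ℓ : ℤ) = a * n * (z - cc) + (a * cc) * (n - ρ) + (a * cc * ρ + ℓ) := by ring
        show (r : ℤ) ∣ a * z * n + (ℓ : ℤ)
        rw [h3]
        exact dvd_add (dvd_add (h1.mul_left _) (h2.mul_left _)) hρ) h hh bad hbad Z' hZ'mem
    (fun z hz => ⟨mul_ne_zero ha (hZ'mem z hz).1, hℓZ⟩)
    (by
      intro z hz
      constructor
      · push_cast
        rw [abs_mul]
        have h1 : |(z : ℝ)| ≤ X := (hZ'mem z hz).2.trans ((hLA _ le_rfl).trans hEX)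
        calc |(a : ℝ)| * |(z : ℝ)| ≤ L ^ D * X := mul_le_mul haD h1 (abs_nonneg _) (by positivity)
          _ ≤ X ^ D * X := mul_le_mul_of_nonneg_right (pow_le_pow_left₀ hL0.le hLX _) hX0.le
          _ = X ^ (D + 1) := by ring
          _ ≤ X ^ (D + 2) := pow_le_pow_right₀ hX1 (by omega)
      · have h1 : |(((ℓ : ℤ)) : ℝ)| = (ℓ : ℝ) := by
          push_cast
          exact abs_of_nonneg (by positivity)
        show |(((ℓ : ℤ)) : ℝ)| ≤ X ^ (D + 2)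
        rw [h1]
        calc (ℓ : ℝ) ≤ X := by linarith
          _ = X ^ 1 := (pow_one _).symm
          _ ≤ X ^ (D + 2) := pow_le_pow_right₀ hX1 (by omega))
    (by
      intro k _ l _ hkl h1
      apply hkl
      have h2 : (a * (ℓ : ℤ)) * k = (a * (ℓ : ℤ)) * l := by
        have h3 : a * k * (ℓ : ℤ) = a * l * (ℓ : ℤ) := h1
        linarith
      exact mul_left_cancel₀ (mul_ne_zero ha hℓZ) h2) hZ'w
  refine ⟨p, hp, hXp, hp3, hpb, hpd, ?_⟩
  intro k hk b j hb1 hbB hj1 hjJ q hq heq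
  obtain ⟨hk0, hkle⟩ := hK k hk
  have hMB : ((B : ℕ) : ℤ) ≤ ((max B J : ℕ) : ℤ) := by exact_mod_cast le_max_left B J
  have hMJ : ((J : ℕ) : ℤ) ≤ ((max B J : ℕ) : ℤ) := by exact_mod_cast le_max_right B J
  obtain ⟨i₁, hi₁⟩ : b ∣ (ℓ : ℤ) := by
    rw [hℓ]
    exact hdivF b hb1 (hbB.trans hMB)
  have hjℓ : j ∣ (ℓ : ℤ) := by
    rw [hℓ]
    exact hdivF j hj1 (hjJ.trans hMJ)
  have hi₁ℓ : i₁ ∣ (ℓ : ℤ) := ⟨b, by rw [hi₁]; ring⟩
  have hi₁0 : i₁ ≠ 0 := by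
    rintro rfl
    rw [mul_zero] at hi₁
    exact hℓZ hi₁
  have hi₁le : |i₁| ≤ (ℓ : ℤ) := by
    rw [Int.abs_eq_natAbs]
    have := Nat.le_of_dvd hℓ0 (Int.natCast_dvd_natCast.1 ((Int.natAbs_dvd).2 hi₁ℓ))
    exact_mod_cast this
  have hid : a * (i₁ * k) * p + (ℓ : ℤ) = i₁ * j * q := by
    rw [hi₁, mul_assoc i₁ j (q : ℤ), heq]
    ring
  obtain ⟨q', hq', hq'X, hq'g, hq'd⟩ := hmain (i₁ * k) (by
    rw [hZ', mem_image]
    exact ⟨(i₁, k), mem_product.2 ⟨(hImem i₁).2 ⟨hi₁le, hi₁0⟩, hk⟩, rfl⟩)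
  have hq'd' : (q' : ℤ) ∣ a * (i₁ * k) * p + (ℓ : ℤ) := hq'd
  rw [hid] at hq'd'
  have hq'ℓ : ¬ (q' : ℤ) ∣ (ℓ : ℤ) := by
    intro h1
    apply hq'g
    rw [hga]
    exact (Int.natCast_dvd_natCast.1 h1).mul_right _
  have hqq : q' = q := by
    rcases (Nat.prime_iff_prime_int.1 hq').dvd_mul.1 hq'd' with h1 | h1
    · rcases (Nat.prime_iff_prime_int.1 hq').dvd_mul.1 h1 with h2 | h2
      · exact absurd (h2.trans hi₁ℓ) hq'ℓ
      · exact absurd (h2.trans hjℓ) hq'ℓ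
    · exact (Nat.prime_dvd_prime_iff_eq hq' hq).1 (by exact_mod_cast h1)
  have hqE : (q : ℝ) ≤ E := by
    rw [← hqq]
    exact hq'X.trans e1000
  -- contradiction
  have h1 : |(a : ℝ)| * |(k : ℝ)| * p ≤ (J : ℝ) * E + B := by
    have h2 : (a : ℝ) * (k : ℝ) * p = j * q - (b : ℤ) := by
      have h3 : ((j * q : ℤ) : ℝ) = ((a * k * p + b : ℤ) : ℝ) := by rw [heq]
      push_cast at h3
      linarith
    have h3 : |(a : ℝ)| * |(k : ℝ)| * p = |(a : ℝ) * (k : ℝ) * p| := by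
      rw [abs_mul, abs_mul, abs_of_nonneg (Nat.cast_nonneg p : (0 : ℝ) ≤ p)]
    rw [h3, h2]
    refine (abs_sub _ _).trans ?_
    rw [abs_mul, abs_of_nonneg (Nat.cast_nonneg q : (0 : ℝ) ≤ q)]
    have h4 : |(j : ℝ)| ≤ J := by exact_mod_cast hjJ
    have h5 : |(j : ℝ)| * q ≤ J * E := mul_le_mul h4 hqE (Nat.cast_nonneg q) hJ0
    have h6 : |(b : ℝ)| ≤ B := by exact_mod_cast hbB
    linarith
  have h2 : (1 : ℝ) ≤ |(k : ℝ)| := by
    have : 1 ≤ |k| := Int.one_le_abs hk0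
    exact_mod_cast this
  have h3 : (1 : ℝ) ≤ |(a : ℝ)| := by
    have : 1 ≤ |a| := Int.one_le_abs ha
    exact_mod_cast this
  have h4 : X ≤ |(a : ℝ)| * |(k : ℝ)| * p := by
    have h5 : (1 : ℝ) ≤ |(a : ℝ)| * |(k : ℝ)| := by nlinarith
    calc X ≤ p := hXp.le
      _ ≤ _ := le_mul_of_one_le_left (Nat.cast_nonneg p) h5
  have h5 : (J : ℝ) * E + B < E ^ 40 := by
    calc (J : ℝ) * E + B ≤ J * E + B * E := by nlinarith
      _ = (J + B) * E := by ring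
      _ < E * E := mul_lt_mul_of_pos_right (by linarith) hE0
      _ = E ^ 2 := by ring
      _ ≤ E ^ 40 := pow_le_pow_right₀ hE1 (by norm_num)
  rw [eX] at h4
  linarith

/-- the same for the multiples by the powers `m ^ s` -/
theorem powers (A D J s : ℕ) (hs : 1 ≤ s) (A₀ : ℝ) (d : ℕ) (hd : Squarefree d) (b : ℤ) (hb : b ≠ 0) :
    ∃ c : ℝ, 0 < c ∧ ∀ᶠ X : ℝ in atTop,
    ∀ a : ℤ, a ≠ 0 → |(a : ℝ)| ≤ (Real.log X) ^ D → |(a : ℝ)| ≤ A₀ * (a.natAbs.totient : ℝ) →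
    ∀ h : ℕ, h.Coprime d → ∀ K : Finset ℕ,
    (∀ m ∈ K, 1 ≤ m ∧ (m : ℝ) ≤ Real.log X * (Real.log (Real.log X)) ^ A) →
    ∑ m ∈ K, ((m : ℝ) / (m.totient : ℝ)) ≤ c * ff X →
    ∀ bad : Finset ℕ, (bad.card : ℝ) ≤ X ^ (9 / 10 : ℝ) →
    ∃ p : ℕ, p.Prime ∧ X < p ∧ (p : ℝ) ≤ 3 * X ∧ p ∉ bad ∧ p ≡ h [MOD d] ∧
      ∀ m ∈ K, ∀ j : ℤ, 1 ≤ |j| → |j| ≤ J → ∀ q : ℕ, q.Prime → j * q ≠ a * (m : ℤ) ^ s * p + b := by
  obtain ⟨ℓ, hℓ⟩ : ∃ ℓ : ℕ, ℓ = J.factorial * b.natAbs := ⟨_, rfl⟩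
  have hbn : b.natAbs ≠ 0 := Int.natAbs_ne_zero.2 hb
  have hℓ0 : 0 < ℓ := by rw [hℓ]; exact Nat.mul_pos (Nat.factorial_pos _) (Nat.pos_of_ne_zero hbn)
  have hℓr : (1 : ℝ) ≤ ℓ := by exact_mod_cast hℓ0
  have hd0 : d ≠ 0 := hd.ne_zero
  obtain ⟨c₁, hc₁, hone⟩ := oneZ A (D + s + 2) (ℓ + |A₀| + d)
  refine ⟨c₁, hc₁, ?_⟩
  have t1 := Real.tendsto_log_atTop
  have t2 : Tendsto (fun y : ℝ => Real.log (Real.log y)) atTop atTop := t1.comp t1
  filter_upwards [hone d hd, ev_ff c₁ hc₁, t1.eventually_ge_atTop ((ℓ : ℝ) * d),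
    t1.eventually_ge_atTop ((J : ℝ) + |(b : ℝ)| + 2), t2.eventually_ge_atTop (ℓ + 1 : ℝ), eventually_ge_atTop 4,
    t1.eventually (Pool.Agent.H378R2.ev_pow_exp (D + A + 3) (1 / 40) 1 (by norm_num))]
    with X hX hff hLd hLJ hLℓ hX4 hE
  intro a ha haD haφ h hh K hK hKw bad hbad
  set L := Real.log X with hL
  have hX0 : 0 < X := by linarith
  have hJ0 : (0 : ℝ) ≤ J := Nat.cast_nonneg J
  have hB0 : (0 : ℝ) ≤ |(b : ℝ)| := abs_nonneg _
  have hL1 : 1 ≤ L := by linarith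
  have hL0 : 0 < L := by linarith
  have hLL : Real.log L ≤ L := (Real.log_le_sub_one_of_pos hL0).trans (by linarith)
  have hLL0 : 0 < Real.log L := by linarith
  set E := Real.exp (1 / 40 * L) with hEd
  rw [one_mul] at hE
  have hE0 : 0 < E := Real.exp_pos _
  have hELJ : (J : ℝ) + |(b : ℝ)| + 2 ≤ E := by
    have h1 : L ^ 1 ≤ L ^ (D + A + 3) := pow_le_pow_right₀ hL1 (by omega)
    rw [pow_one] at h1
    linarith
  have hE1 : 1 ≤ E := by linarith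
  have hpowE : ∀ k : ℕ, X ^ ((k : ℝ) / 40) = E ^ k := by
    intro k
    rw [hEd, ← Real.exp_nat_mul, Real.rpow_def_of_pos hX0, ← hL]
    congr 1
    ring
  have e1000 : X ^ (1 / 1000 : ℝ) ≤ E := by
    have h1 := hpowE 1
    rw [pow_one] at h1
    rw [← h1]
    exact Real.rpow_le_rpow_of_exponent_le (by linarith) (by norm_num)
  have eX : X = E ^ 40 := by
    have h1 := hpowE 40
    rw [← h1]
    norm_num
  -- the data
  set ga : ℕ := ℓ * (a.natAbs * d) with hga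
  have hana : a.natAbs ≠ 0 := Int.natAbs_ne_zero.2 ha
  have hga0 : ga ≠ 0 := by
    rw [hga]
    exact mul_ne_zero hℓ0.ne' (mul_ne_zero hana hd0)
  have hacast : ((a.natAbs : ℕ) : ℝ) = |(a : ℝ)| := by rw [Nat.cast_natAbs, Int.cast_abs]
  have hgsum : ∑ p ∈ ga.primeFactors, (1 : ℝ) / p ≤ ℓ + |A₀| + d := by
    have h1 := sum_inv_mul ℓ (a.natAbs * d) hℓ0.ne' (mul_ne_zero hana hd0)
    have h2 := sum_inv_mul a.natAbs d hana hd0
    have h3 := sum_inv_le_self ℓ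
    have h4 := sum_inv_le_self d
    have h5 := sum_inv_le_of_totient a.natAbs hana A₀ (by rw [hacast]; exact haφ)
    have h6 := le_abs_self A₀
    rw [← hga] at h1
    linarith
  have hgle : (ga : ℝ) ≤ L ^ (D + 1) := by
    rw [hga]
    push_cast
    rw [hacast]
    calc (ℓ : ℝ) * (|(a : ℝ)| * d) = |(a : ℝ)| * (ℓ * d) := by ring
      _ ≤ L ^ D * L := mul_le_mul haD hLd (by positivity) (by positivity)
      _ = L ^ (D + 1) := (pow_succ _ _).symm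
  have hdivga : a ∣ (ga : ℤ) := by
    rw [hga]
    push_cast
    have h1 : (a : ℤ) ∣ |a| := (dvd_abs a a).2 (dvd_refl a)
    exact (h1.mul_right _).mul_left _
  have hdivgl : (ℓ : ℤ) ∣ (ga : ℤ) := by
    rw [hga]
    push_cast
    exact dvd_mul_right _ _
  have hbℓ : b ∣ (ℓ : ℤ) := by
    rw [hℓ]
    push_cast
    exact ((dvd_abs b b).2 (dvd_refl b)).mul_left _
  set Z : Finset ℤ := K.image (fun m : ℕ => (m : ℤ)) with hZ
  have hZmem : ∀ z ∈ Z, z ≠ 0 ∧ |(z : ℝ)| ≤ L * (Real.log L) ^ A := by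
    intro z hz
    rw [hZ, mem_image] at hz
    obtain ⟨m, hm, rfl⟩ := hz
    obtain ⟨h1, h2⟩ := hK m hm
    refine ⟨by omega, ?_⟩
    push_cast
    rwa [abs_of_nonneg (Nat.cast_nonneg m)]
  have hZpos : ∀ z ∈ Z, 0 < z := by
    intro z hz
    rw [hZ, mem_image] at hz
    obtain ⟨m, hm, rfl⟩ := hz
    have := (hK m hm).1
    omega
  have hZw : ∑ z ∈ Z, ((z.natAbs : ℝ) / (z.natAbs.totient : ℝ)) ≤ c₁ * ff X := by
    rw [hZ, sum_image]
    · simpa using hKw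
    · intro m _ n _ hmn
      simpa using hmn
  have hLX : L ≤ X := (Real.log_le_sub_one_of_pos hX0).trans (by linarith)
  have hX1 : 1 ≤ X := by linarith
  have hLA : L * (Real.log L) ^ A ≤ E := by
    calc L * (Real.log L) ^ A ≤ L * L ^ A := by gcongr
      _ = L ^ (A + 1) := by ring
      _ ≤ L ^ (D + A + 3) := pow_le_pow_right₀ hL1 (by omega)
      _ ≤ E := hE
  have hEX : E ≤ X := by
    rw [eX]
    calc E = E ^ 1 := (pow_one _).symm
      _ ≤ E ^ 40 := pow_le_pow_right₀ hE1 (by norm_num)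
  obtain ⟨p, hp, hXp, hp3, hpb, hpd, hmain⟩ := hX (fun z => a * z ^ s) (fun _ => b) ga hga0
    (by
      rw [hga]
      exact Dvd.dvd.mul_left (Dvd.dvd.mul_left (dvd_refl d) _) _) hgsum
    (hgle.trans (pow_le_pow_right₀ hL1 (by omega)))
    (by
      intro r hr hrg cc hcc
      have hrp := Nat.prime_iff_prime_int.1 hr
      have hra : ¬ (r : ℤ) ∣ a * cc ^ s := by
        intro h1
        rcases hrp.dvd_mul.1 h1 with h2 | h2
        · exact hrg (by exact_mod_cast h2.trans hdivga)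
        · exact hcc (hrp.dvd_of_dvd_pow h2)
      obtain ⟨ρ, hρ⟩ := solve r hr (a * cc ^ s) b hra
      refine ⟨ρ, ?_, ?_⟩
      · intro h1
        apply hrg
        have h2 : (r : ℤ) ∣ (ρ : ℤ) := Int.natCast_dvd_natCast.2 h1
        have h3 := dvd_sub hρ (h2.mul_left (a * cc ^ s))
        rw [add_sub_cancel_left] at h3
        exact_mod_cast (h3.trans hbℓ).trans hdivgl
      · intro z n h1 h2
        have h3 : a * z ^ s * n + b = a * n * (z ^ s - cc ^ s) + (a * cc ^ s) * (n - ρ) + (a * cc ^ s * ρ + b) := by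
          ring
        show (r : ℤ) ∣ a * z ^ s * n + b
        rw [h3]
        exact dvd_add (dvd_add ((h1.trans (sub_dvd_pow_sub_pow z cc s)).mul_left _) (h2.mul_left _)) hρ)
    h hh bad hbad Z hZmem
    (fun z hz => ⟨mul_ne_zero ha (pow_ne_zero _ (hZmem z hz).1), hb⟩)
    (by
      intro z hz
      constructor
      · push_cast
        rw [abs_mul, abs_pow]
        have h1 : |(z : ℝ)| ≤ X := (hZmem z hz).2.trans (hLA.trans hEX)
        calc |(a : ℝ)| * |(z : ℝ)| ^ s ≤ L ^ D * X ^ s :=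
              mul_le_mul haD (pow_le_pow_left₀ (abs_nonneg _) h1 _) (by positivity) (by positivity)
          _ ≤ X ^ D * X ^ s := mul_le_mul_of_nonneg_right (pow_le_pow_left₀ hL0.le hLX _) (by positivity)
          _ = X ^ (D + s) := by ring
          _ ≤ X ^ (D + s + 2) := pow_le_pow_right₀ hX1 (by omega)
      · show |((b : ℤ) : ℝ)| ≤ X ^ (D + s + 2)
        calc |((b : ℤ) : ℝ)| ≤ X := by linarith
          _ = X ^ 1 := (pow_one _).symm
          _ ≤ X ^ (D + s + 2) := pow_le_pow_right₀ hX1 (by omega))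
    (by
      intro k hk l hl hkl h1
      apply hkl
      have h2 : (a * b) * k ^ s = (a * b) * l ^ s := by
        have h3 : a * k ^ s * b = a * l ^ s * b := h1
        linarith
      have h3 := mul_left_cancel₀ (mul_ne_zero ha hb) h2
      exact (pow_left_inj₀ (hZpos k hk).le (hZpos l hl).le (by omega)).1 h3) hZw
  refine ⟨p, hp, hXp, hp3, hpb, hpd, ?_⟩
  intro m hm j hj1 hjJ q hq heq
  have hm1 := (hK m hm).1
  obtain ⟨q', hq', hq'X, hq'g, hq'd⟩ := hmain (m : ℤ) (by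
    rw [hZ, mem_image]
    exact ⟨m, hm, rfl⟩)
  have hq'd' : (q' : ℤ) ∣ a * (m : ℤ) ^ s * p + b := hq'd
  rw [← heq] at hq'd'
  have hjℓ : j ∣ (ℓ : ℤ) := by
    rw [hℓ]
    push_cast
    exact (hdivF j hj1 hjJ).mul_right _
  have hq'ℓ : ¬ (q' : ℤ) ∣ (ℓ : ℤ) := by
    intro h1
    apply hq'g
    rw [hga]
    exact (Int.natCast_dvd_natCast.1 h1).mul_right _
  have hqq : q' = q := by
    rcases (Nat.prime_iff_prime_int.1 hq').dvd_mul.1 hq'd' with h1 | h1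
    · exact absurd (h1.trans hjℓ) hq'ℓ
    · exact (Nat.prime_dvd_prime_iff_eq hq' hq).1 (by exact_mod_cast h1)
  have hqE : (q : ℝ) ≤ E := by
    rw [← hqq]
    exact hq'X.trans e1000
  have h1 : |(a : ℝ)| * (m : ℝ) ^ s * p ≤ (J : ℝ) * E + |(b : ℝ)| := by
    have h2 : (a : ℝ) * (m : ℝ) ^ s * p = j * q - (b : ℤ) := by
      have h3 : ((j * q : ℤ) : ℝ) = ((a * (m : ℤ) ^ s * p + b : ℤ) : ℝ) := by rw [heq]
      push_cast at h3
      linarith
    have h3 : |(a : ℝ)| * (m : ℝ) ^ s * p = |(a : ℝ) * (m : ℝ) ^ s * p| := by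
      rw [abs_mul, abs_mul, abs_of_nonneg (Nat.cast_nonneg p : (0 : ℝ) ≤ p),
        abs_of_nonneg (by positivity : (0 : ℝ) ≤ (m : ℝ) ^ s)]
    rw [h3, h2]
    refine (abs_sub _ _).trans ?_
    rw [abs_mul, abs_of_nonneg (Nat.cast_nonneg q : (0 : ℝ) ≤ q)]
    have h4 : |(j : ℝ)| ≤ J := by exact_mod_cast hjJ
    have h5 : |(j : ℝ)| * q ≤ J * E := mul_le_mul h4 hqE (Nat.cast_nonneg q) hJ0
    linarith
  have h2 : (1 : ℝ) ≤ (m : ℝ) ^ s := one_le_pow₀ (by exact_mod_cast hm1)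
  have h3 : (1 : ℝ) ≤ |(a : ℝ)| := by
    have : 1 ≤ |a| := Int.one_le_abs ha
    exact_mod_cast this
  have h4 : X ≤ |(a : ℝ)| * (m : ℝ) ^ s * p := by
    have h5 : (1 : ℝ) ≤ |(a : ℝ)| * (m : ℝ) ^ s := by nlinarith
    calc X ≤ p := hXp.le
      _ ≤ _ := le_mul_of_one_le_left (Nat.cast_nonneg p) h5
  have h5 : (J : ℝ) * E + |(b : ℝ)| < E ^ 40 := by
    calc (J : ℝ) * E + |(b : ℝ)| ≤ J * E + |(b : ℝ)| * E := by nlinarith
      _ = (J + |(b : ℝ)|) * E := by ring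
      _ < E * E := mul_lt_mul_of_pos_right (by linarith) hE0
      _ = E ^ 2 := by ring
      _ ≤ E ^ 40 := pow_le_pow_right₀ hE1 (by norm_num)
  rw [eX] at h4
  linarith

end Pool.Agent.Helper12.PK
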