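import Pool.Agent.TH101.RG.PatZ
import Pool.Agent.Helper12.PK.All

set_option autoImplicit false
set_option maxHeartbeats 4000000

/-! # Primes `p` with no prime `a k p + b` for all `k` in a window of record size around any given integer -/

namespace Pool.Agent.Helper12.PK

open Finset Filter
open Pool.Agent.H378R2
open Pool.Agent.H312R2.RG (BVat ev_ff)
open Pool.Agent.H256R2.SC (ff)
open Pool.Agent.TH101.RG

open scoped Classical

theorem runs (A0 : ℝ) (hA0 : 0 ≤ A0) (D : ℕ) : ∃ c : ℝ, 0 < c ∧ ∀ d : ℕ, Squarefree d → ∀ᶠ X : ℝ in atTop,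
    ∀ (a b : ℤ) (g : ℕ), g ≠ 0 → a ∣ g → b ∣ g → d ∣ g → ∑ p ∈ g.primeFactors, (1 : ℝ) / p ≤ A0 →
    (g : ℝ) ≤ (Real.log X) ^ D →
    ∀ k₀ : ℤ, |(k₀ : ℝ)| ≤ X ^ D → ∀ h : ℕ, h.Coprime d → ∀ bad : Finset ℕ, (bad.card : ℝ) ≤ X ^ (9 / 10 : ℝ) →
    ∃ p : ℕ, p.Prime ∧ X < p ∧ (p : ℝ) ≤ 3 * X ∧ p ∉ bad ∧ p ≡ h [MOD d] ∧
      ∀ k : ℤ, k ≠ 0 → |((k - k₀ : ℤ) : ℝ)| ≤ c * ff X →
        ∃ q : ℕ, q.Prime ∧ (q : ℝ) ≤ X ^ (1 / 1000 : ℝ) ∧ ¬ q ∣ g ∧ (q : ℤ) ∣ a * k * p + b := by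
  obtain ⟨Abv, c₄, hc₄, ht⟩ := templ2 (2 * D + 2)
  obtain ⟨c, hc, hcov⟩ := coverK 1 D A0 hA0 c₄ hc₄
  refine ⟨c, hc, fun d hd => ?_⟩
  obtain ⟨X1, hbv⟩ := bvrel_holds Abv (max 2 d)
  have t1 := Real.tendsto_log_atTop
  have t2 : Tendsto (fun y : ℝ => Real.log (Real.log y)) atTop atTop := t1.comp t1
  filter_upwards [ht (max 2 d), hcov, eventually_ge_atTop X1, eventually_ge_atTop 4,
    t1.eventually_ge_atTop 1, t1.eventually_ge_atTop (1000 * (max 2 d : ℕ)),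
    t2.eventually_ge_atTop ((max 2 d : ℕ) + 1),
    t1.eventually (Pool.Agent.H378R2.ev_pow_exp 2 1 4 one_pos)] with X htX hcovX hX1 hX4 hL1 hLd hL2d hE
  intro a b g hg0 hag hbg hdg hgS hgD k₀ hk₀ h hhd bad hbad
  obtain ⟨ps, S, hps, hS, hBV⟩ := hbv X hX1
  have hX0 : 0 < X := by linarith
  have hXX1 : 1 ≤ X := by linarith
  have hLX : Real.log X ≤ X := (Real.log_le_sub_one_of_pos hX0).trans (by linarith)
  rw [one_mul, Real.exp_log hX0] at hE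
  have ha : a ≠ 0 := by
    rintro rfl
    rw [zero_dvd_iff] at hag
    exact hg0 (by exact_mod_cast hag)
  have hb : b ≠ 0 := by
    rintro rfl
    rw [zero_dvd_iff] at hbg
    exact hg0 (by exact_mod_cast hbg)
  have habs : ∀ x : ℤ, x ∣ (g : ℤ) → |(x : ℝ)| ≤ X ^ D := by
    intro x hx
    have h1 : x.natAbs ≤ g := Nat.le_of_dvd (Nat.pos_of_ne_zero hg0) (Int.natAbs_dvd_natAbs.2 hx)
    have h2 : ((x.natAbs : ℕ) : ℝ) = |(x : ℝ)| := by rw [Nat.cast_natAbs, Int.cast_abs]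
    rw [← h2]
    have h3 : ((x.natAbs : ℕ) : ℝ) ≤ g := by exact_mod_cast h1
    exact h3.trans (hgD.trans (pow_le_pow_left₀ (by linarith) hLX D))
  set u : ℕ → ℕ := fun p => if p ∣ d then h else 1 with hu
  have hup : ∀ p, p.Prime → ¬ p ∣ u p := by
    intro p hp
    simp only [hu]
    split_ifs with hpd
    · intro hph
      exact hp.one_lt.ne' (Nat.dvd_one.1 (hhd ▸ Nat.dvd_gcd hph hpd))
    · intro h1
      exact hp.one_lt.ne' (Nat.dvd_one.1 h1)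
  obtain ⟨r, b', U0, hr0, hU0c, hU0, hbb', hrg, hmain⟩ := hcovX ps S (goodP_mono (le_max_left _ _) hps) hS 1 g hg0
    (one_dvd _) hgS hgD k₀ (fun _ => 0) u (by
      intro p hp _ _
      rw [add_zero]
      exact hup p hp)
  have hrc0 : r.Coprime (WW X S ps) := by simpa using hr0 0
  simp only [Nat.cast_zero, mul_zero, one_mul] at hU0 hmain
  set U : Finset ℤ := U0.image (fun k : ℕ => b' + (k : ℤ)) with hU
  have hUc : (U.card : ℝ) ≤ c₄ * Real.log X := by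
    refine le_trans ?_ hU0c
    exact_mod_cast card_image_le
  have hUmem : ∀ κ ∈ U, κ ≠ 0 ∧ |(κ : ℝ)| ≤ X ^ (D + 1) := by
    intro κ hκ
    rw [hU, mem_image] at hκ
    obtain ⟨k, hk, rfl⟩ := hκ
    obtain ⟨h1, h2⟩ := hU0 k hk
    refine ⟨h2 0, ?_⟩
    have h6 : ((b' + (k : ℕ) : ℤ) : ℝ) = ((b' - k₀ : ℤ) : ℝ) + (k₀ : ℝ) + k := by
      push_cast; ring
    rw [h6]
    have h7 : |((b' - k₀ : ℤ) : ℝ) + (k₀ : ℝ) + k| ≤ |((b' - k₀ : ℤ) : ℝ)| + |(k₀ : ℝ)| + |(k : ℝ)| :=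
      abs_add_three _ _ _
    rw [abs_of_nonneg (Nat.cast_nonneg k : (0 : ℝ) ≤ k)] at h7
    have h9 : (1 : ℝ) ≤ X ^ D := one_le_pow₀ hXX1
    have h10 : X ^ (D + 1) = X ^ D * X := pow_succ _ _
    have h11 : 0 ≤ (X ^ D - 1) * (X - 1) := mul_nonneg (by linarith) (by linarith)
    rw [h10]
    nlinarith
  -- the residues
  have hex : ∀ p : ℕ, ∃ ρ : ℕ, p ∈ PW X S ps → (¬ p ∣ ρ ∧ (p ∣ g → ρ = u p) ∧
      (¬ p ∣ g → (p : ℤ) ∣ a * r * ρ + -b)) := by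
    intro p
    by_cases hp : p ∈ PW X S ps
    · have hpp := (mem_PW.1 hp).2.1
      by_cases hpg : p ∣ g
      · exact ⟨u p, fun _ => ⟨hup p hpp, fun _ => rfl, fun h => absurd hpg h⟩⟩
      · have hpa : ¬ (p : ℤ) ∣ a * r := by
          intro h1
          rcases (Nat.prime_iff_prime_int.1 hpp).dvd_mul.1 h1 with h2 | h2
          · exact hpg (by exact_mod_cast h2.trans hag)
          · have h3 : p ∣ r := by exact_mod_cast h2
            have h4 : p ∣ Nat.gcd r (WW X S ps) := Nat.dvd_gcd h3 ((prime_dvd_WW hpp).2 hp)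
            rw [hrc0] at h4
            exact hpp.one_lt.ne' (Nat.dvd_one.1 h4)
        obtain ⟨ρ, hρ⟩ := solve p hpp (a * r) (-b) hpa
        refine ⟨ρ, fun _ => ⟨?_, fun h => absurd h hpg, fun _ => hρ⟩⟩
        intro h1
        apply hpg
        have h2 : (p : ℤ) ∣ (ρ : ℤ) := Int.natCast_dvd_natCast.2 h1
        have h3 := dvd_sub hρ (h2.mul_left (a * r))
        rw [add_sub_cancel_left, dvd_neg] at h3
        exact_mod_cast h3.trans hbg
    · exact ⟨0, fun h => absurd h hp⟩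
  choose ρ hρ using hex
  obtain ⟨r', hr⟩ := Nat.chineseRemainderOfFinset ρ (fun p => p) (PW X S ps)
    (fun p hp => (mem_PW.1 hp).2.1.ne_zero)
    (fun p hp q hq hpq => (Nat.coprime_primes (mem_PW.1 (by simpa using hp)).2.1
      (mem_PW.1 (by simpa using hq)).2.1).2 hpq)
  have hrc : r'.Coprime (WW X S ps) := by
    unfold WW
    rw [Nat.coprime_prod_right_iff]
    intro p hp
    have hpp := (mem_PW.1 hp).2.1
    rw [Nat.coprime_comm, Nat.Prime.coprime_iff_not_dvd hpp]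
    intro hd
    apply (hρ p hp).1
    exact (Nat.modEq_zero_iff_dvd).1 ((hr p hp).symm.trans ((Nat.modEq_zero_iff_dvd).2 hd))
  obtain ⟨n, hnp, hXn, hn3, hnb, hnr, hUn⟩ := htX ps S hps hBV U hUc (fun κ => a * κ) (fun _ => b)
    (fun κ hκ => ⟨mul_ne_zero ha (hUmem κ hκ).1, hb⟩)
    (by
      intro κ hκ
      constructor
      · push_cast
        rw [abs_mul]
        calc |(a : ℝ)| * |(κ : ℝ)| ≤ X ^ D * X ^ (D + 1) :=
              mul_le_mul (habs a hag) (hUmem κ hκ).2 (abs_nonneg _) (by positivity)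
          _ = X ^ (2 * D + 1) := by ring
          _ ≤ X ^ (2 * D + 2) := pow_le_pow_right₀ hXX1 (by omega)
      · exact (habs b hbg).trans (pow_le_pow_right₀ hXX1 (by omega)))
    (by
      intro κ _ l _ hkl h1
      apply hkl
      have h2 : (a * b) * κ = (a * b) * l := by
        have h3 : a * κ * b = a * l * b := h1
        linarith
      exact mul_left_cancel₀ (mul_ne_zero ha hb) h2) g hg0
    ((hgD.trans (pow_le_pow_left₀ (by linarith) hLX D)).trans (pow_le_pow_right₀ hXX1 (by omega))) r' hrc bad hbad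
  refine ⟨n, hnp, hXn, hn3, hnb, ?_, fun k hk0 hk => ?_⟩
  · apply modEq_of_primes hd
    intro p hp
    have hpp := Nat.prime_of_mem_primeFactors hp
    have hpd := Nat.dvd_of_mem_primeFactors hp
    have hd0 : 0 < d := Nat.pos_of_ne_zero hd.ne_zero
    have hpled : p ≤ d := Nat.le_of_dvd hd0 hpd
    have hpPW := small_mem_PW hLd hL2d hps le_rfl hS hpp (hpled.trans (le_max_right 2 d))
    have h1 := hr p hpPW
    have h2 : ρ p = u p := (hρ p hpPW).2.1 (hpd.trans hdg)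
    have h3 : u p = h := by simp only [hu]; rw [if_pos hpd]
    rw [h2, h3] at h1
    exact (hnr.of_dvd ((prime_dvd_WW hpp).2 hpPW)).trans h1
  · rcases hmain (k - k₀) hk (fun _ => by rwa [add_sub_cancel]) with h1 | h1
    · obtain ⟨k', hk', h2⟩ := h1
      rw [add_sub_cancel] at h2
      have h3 : k ∈ U := by
        rw [hU, mem_image]
        exact ⟨k', hk', h2.symm⟩
      exact hUn k h3
    · obtain ⟨p, hpp, hpy, hpg, h2⟩ := h1
      have h3 : (p : ℤ) ∣ (r : ℤ) + k := by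
        have := h2 r rfl
        rwa [add_assoc, add_sub_cancel] at this
      have h4 : p ∣ WW X S ps := by
        have h5 := h2 (r + WW X S ps) (by simp [Nat.ModEq])
        rw [add_assoc, add_sub_cancel] at h5
        have h6 := dvd_sub h5 h3
        have h7 : (((r + WW X S ps : ℕ) : ℤ) + k) - ((r : ℤ) + k) = ((WW X S ps : ℕ) : ℤ) := by
          push_cast; ring
        rw [h7] at h6
        exact_mod_cast h6
      have hpPW : p ∈ PW X S ps := (prime_dvd_WW hpp).1 h4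
      refine ⟨p, hpp, le_rpow_of_le_yy hX0 (by linarith) hpy, hpg, ?_⟩
      have h5 := (hρ p hpPW).2.2 hpg
      have h6 : (p : ℤ) ∣ (n : ℤ) - ρ p :=
        Nat.modEq_iff_dvd.1 (((hnr.of_dvd h4).trans (hr p hpPW)).symm)
      have h7 : a * k * n + b = a * n * ((r : ℤ) + k) - (a * r) * ((n : ℤ) - ρ p) - (a * r * ρ p + -b) := by ring
      rw [h7]
      exact dvd_sub (dvd_sub (h3.mul_left _) (h6.mul_left _)) h5

theorem main_runs (D J : ℕ) (A₀ : ℝ) (d : ℕ) (hd : Squarefree d) : ∃ c : ℝ, 0 < c ∧ ∃ X₀ : ℝ,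
    ∀ X : ℝ, X₀ ≤ X → ∀ a b : ℤ, a ≠ 0 → b ≠ 0 → |(a : ℝ)| ≤ (Real.log X) ^ D → |(b : ℝ)| ≤ (Real.log X) ^ D →
    |(a : ℝ)| ≤ A₀ * (a.natAbs.totient : ℝ) → |(b : ℝ)| ≤ A₀ * (b.natAbs.totient : ℝ) →
    ∀ h : ℕ, h.Coprime d → ∀ k₀ : ℤ, |(k₀ : ℝ)| ≤ X ^ D →
    X ^ (9 / 10 : ℝ) ≤ ({p : ℕ | p.Prime ∧ X < p ∧ (p : ℝ) ≤ 3 * X ∧ p ≡ h [MOD d] ∧
      ∀ k : ℤ, k ≠ 0 → |((k - k₀ : ℤ) : ℝ)| ≤ c * ff X → ∀ j : ℤ, 1 ≤ |j| → |j| ≤ J → ∀ q : ℕ, q.Prime →
        j * q ≠ a * k * p + b}.ncard : ℝ) := by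
  obtain ⟨ℓ, hℓ⟩ : ∃ ℓ : ℕ, ℓ = J.factorial := ⟨_, rfl⟩
  have hℓ0 : 0 < ℓ := by rw [hℓ]; exact Nat.factorial_pos J
  have hℓr : (1 : ℝ) ≤ ℓ := by exact_mod_cast hℓ0
  have hd0 : d ≠ 0 := hd.ne_zero
  obtain ⟨c, hc, hruns⟩ := runs (ℓ + 2 * |A₀| + d) (by positivity) (2 * D + 1)
  have t1 := Real.tendsto_log_atTop
  obtain ⟨X₀, hX₀⟩ := eventually_atTop.1 ((((hruns d hd).and (t1.eventually_ge_atTop ((ℓ : ℝ) * d))).and
    (t1.eventually_ge_atTop ((J : ℝ) + 2))).and ((eventually_ge_atTop 4).and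
    (t1.eventually (Pool.Agent.H378R2.ev_pow_exp (D + 1) (1 / 40) 1 (by norm_num)))))
  refine ⟨c, hc, X₀, fun X hXX a b ha hb haD hbD haφ hbφ h hh k₀ hk₀ => ?_⟩
  obtain ⟨⟨⟨hX, hLd⟩, hLJ⟩, hX4, hE⟩ := hX₀ X hXX
  set L := Real.log X with hL
  have hX0 : 0 < X := by linarith
  have hX1 : 1 ≤ X := by linarith
  have hJ0 : (0 : ℝ) ≤ J := Nat.cast_nonneg J
  have hL1 : 1 ≤ L := by linarith
  have hL0 : 0 < L := by linarith
  set E := Real.exp (1 / 40 * L) with hEd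
  rw [one_mul] at hE
  have hE0 : 0 < E := Real.exp_pos _
  have hE1 : (J : ℝ) + 2 ≤ E := by
    have h1 : L ^ 1 ≤ L ^ (D + 1) := pow_le_pow_right₀ hL1 (by omega)
    rw [pow_one] at h1
    linarith
  have hpowE : ∀ k : ℕ, X ^ ((k : ℝ) / 40) = E ^ k := by
    intro k
    rw [hEd, ← Real.exp_nat_mul, Real.rpow_def_of_pos hX0, ← hL]
    congr 1
    ring
  have e1000 : X ^ (1 / 1000 : ℝ) ≤ E := by
    have h1 := hpowE 1
    rw [pow_one] at h1
    rw [← h1]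
    exact Real.rpow_le_rpow_of_exponent_le (by linarith) (by norm_num)
  have eX : X = E ^ 40 := by
    have h1 := hpowE 40
    rw [← h1]
    norm_num
  have hLDE : L ^ D ≤ E := (pow_le_pow_right₀ hL1 (by omega)).trans hE
  -- the data
  set ga : ℕ := ℓ * (a.natAbs * (b.natAbs * d)) with hga
  have hana : a.natAbs ≠ 0 := Int.natAbs_ne_zero.2 ha
  have hbnb : b.natAbs ≠ 0 := Int.natAbs_ne_zero.2 hb
  have hga0 : ga ≠ 0 := by
    rw [hga]
    exact mul_ne_zero hℓ0.ne' (mul_ne_zero hana (mul_ne_zero hbnb hd0))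
  have hacast : ((a.natAbs : ℕ) : ℝ) = |(a : ℝ)| := by rw [Nat.cast_natAbs, Int.cast_abs]
  have hbcast : ((b.natAbs : ℕ) : ℝ) = |(b : ℝ)| := by rw [Nat.cast_natAbs, Int.cast_abs]
  have hgsum : ∑ p ∈ ga.primeFactors, (1 : ℝ) / p ≤ ℓ + 2 * |A₀| + d := by
    have h1 := sum_inv_mul ℓ (a.natAbs * (b.natAbs * d)) hℓ0.ne' (mul_ne_zero hana (mul_ne_zero hbnb hd0))
    have h2 := sum_inv_mul a.natAbs (b.natAbs * d) hana (mul_ne_zero hbnb hd0)
    have h2' := sum_inv_mul b.natAbs d hbnb hd0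
    have h3 := sum_inv_le_self ℓ
    have h4 := sum_inv_le_self d
    have h5 := sum_inv_le_of_totient a.natAbs hana A₀ (by rw [hacast]; exact haφ)
    have h5' := sum_inv_le_of_totient b.natAbs hbnb A₀ (by rw [hbcast]; exact hbφ)
    have h6 := le_abs_self A₀
    rw [← hga] at h1
    linarith
  have hgle : (ga : ℝ) ≤ L ^ (2 * D + 1) := by
    rw [hga]
    push_cast
    rw [hacast, hbcast]
    calc (ℓ : ℝ) * (|(a : ℝ)| * (|(b : ℝ)| * d)) = (|(a : ℝ)| * |(b : ℝ)|) * (ℓ * d) := by ring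
      _ ≤ (L ^ D * L ^ D) * L :=
          mul_le_mul (mul_le_mul haD hbD (abs_nonneg _) (by positivity)) hLd (by positivity) (by positivity)
      _ = L ^ (2 * D + 1) := by ring
  have hdivga : a ∣ (ga : ℤ) := by
    rw [hga]
    push_cast
    have h1 : (a : ℤ) ∣ |a| := (dvd_abs a a).2 (dvd_refl a)
    exact (h1.mul_right _).mul_left _
  have hdivgb : b ∣ (ga : ℤ) := by
    rw [hga]
    push_cast
    have h1 : (b : ℤ) ∣ |b| := (dvd_abs b b).2 (dvd_refl b)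
    exact ((h1.mul_right _).mul_left _).mul_left _
  have hdga : d ∣ ga := by
    rw [hga]
    exact Dvd.dvd.mul_left (Dvd.dvd.mul_left (Dvd.dvd.mul_left (dvd_refl d) _) _) _
  refine many _ fun bad hbad => ?_
  obtain ⟨p, hp, hXp, hp3, hpb, hpd, hmain⟩ := hX a b ga hga0 hdivga hdivgb hdga hgsum hgle k₀
    (hk₀.trans (pow_le_pow_right₀ hX1 (by omega))) h hh bad hbad
  refine ⟨p, hp, hXp, hp3, hpb, hpd, fun k hk0 hk j hj1 hjJ q hq heq => ?_⟩
  obtain ⟨q', hq', hq'X, hq'g, hq'd⟩ := hmain k hk0 hk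
  rw [← heq] at hq'd
  have hjℓ : j ∣ (ℓ : ℤ) := by
    rw [hℓ]
    exact hdivF j hj1 hjJ
  have hq'ℓ : ¬ (q' : ℤ) ∣ (ℓ : ℤ) := by
    intro h1
    apply hq'g
    rw [hga]
    exact (Int.natCast_dvd_natCast.1 h1).mul_right _
  have hqq : q' = q := by
    rcases (Nat.prime_iff_prime_int.1 hq').dvd_mul.1 hq'd with h1 | h1
    · exact absurd (h1.trans hjℓ) hq'ℓ
    · exact (Nat.prime_dvd_prime_iff_eq hq' hq).1 (by exact_mod_cast h1)
  have hqE : (q : ℝ) ≤ E := by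
    rw [← hqq]
    exact hq'X.trans e1000
  have h1 : |(a : ℝ)| * |(k : ℝ)| * p ≤ (J : ℝ) * E + E := by
    have h2 : (a : ℝ) * (k : ℝ) * p = j * q - (b : ℤ) := by
      have h3 : ((j * q : ℤ) : ℝ) = ((a * k * p + b : ℤ) : ℝ) := by rw [heq]
      push_cast at h3
      linarith
    have h3 : |(a : ℝ)| * |(k : ℝ)| * p = |(a : ℝ) * (k : ℝ) * p| := by
      rw [abs_mul, abs_mul, abs_of_nonneg (Nat.cast_nonneg p : (0 : ℝ) ≤ p)]
    rw [h3, h2]
    refine (abs_sub _ _).trans ?_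
    rw [abs_mul, abs_of_nonneg (Nat.cast_nonneg q : (0 : ℝ) ≤ q)]
    have h4 : |(j : ℝ)| ≤ J := by exact_mod_cast hjJ
    have h5 : |(j : ℝ)| * q ≤ J * E := mul_le_mul h4 hqE (Nat.cast_nonneg q) hJ0
    have h6 : |((b : ℤ) : ℝ)| ≤ E := hbD.trans hLDE
    linarith
  have h2 : (1 : ℝ) ≤ |(k : ℝ)| := by
    have : 1 ≤ |k| := Int.one_le_abs hk0
    exact_mod_cast this
  have h3 : (1 : ℝ) ≤ |(a : ℝ)| := by
    have : 1 ≤ |a| := Int.one_le_abs ha
    exact_mod_cast this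
  have h4 : X ≤ |(a : ℝ)| * |(k : ℝ)| * p := by
    have h5 : (1 : ℝ) ≤ |(a : ℝ)| * |(k : ℝ)| := by nlinarith
    calc X ≤ p := hXp.le
      _ ≤ _ := le_mul_of_one_le_left (Nat.cast_nonneg p) h5
  have h5 : (J : ℝ) * E + E < E ^ 40 := by
    calc (J : ℝ) * E + E = (J + 1) * E := by ring
      _ < E * E := mul_lt_mul_of_pos_right (by linarith) hE0
      _ = E ^ 2 := by ring
      _ ≤ E ^ 40 := pow_le_pow_right₀ (by linarith) (by norm_num)
  rw [eX] at h4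
  linarith

end Pool.Agent.Helper12.PK
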